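import Pool.Agent.W312.WT.StmP

/-!
# Project WT (MP_df8bb0_lc): polynomial time of sorting and naming
-/

set_option autoImplicit false

namespace Pool.Agent.W315.WT

open Pool.Agent Pool.Agent.NPC Pool.Agent.W312.WT

theorem insW_poly : NPC.Poly (fun p : List Jb × Jb => insW p.1 p.2) := by
  have h1 : NPC.Poly (fun p : List Jb × Jb => p.1.filter (fun y => decide (p.2.1 ≤ y.1))) :=
    NPC.Poly.filter (l := fun p : List Jb × Jb => p.1)
      (p := fun (p : List Jb × Jb) (y : Jb) => decide (p.2.1 ≤ y.1)) (NPC.Poly.fst NPC.Poly.id)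
      (NPC.Poly.decide_le (NPC.Poly.fst (NPC.Poly.snd (NPC.Poly.fst NPC.Poly.id))) (NPC.Poly.fst (NPC.Poly.snd NPC.Poly.id)))
  have h2 : NPC.Poly (fun p : List Jb × Jb => p.1.filter (fun y => decide (y.1 < p.2.1))) :=
    NPC.Poly.filter (l := fun p : List Jb × Jb => p.1)
      (p := fun (p : List Jb × Jb) (y : Jb) => decide (y.1 < p.2.1)) (NPC.Poly.fst NPC.Poly.id)
      (NPC.Poly.decide_lt (NPC.Poly.fst (NPC.Poly.snd NPC.Poly.id)) (NPC.Poly.fst (NPC.Poly.snd (NPC.Poly.fst NPC.Poly.id))))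
  exact NPC.Poly.append h1 (NPC.Poly.cons (NPC.Poly.snd NPC.Poly.id) h2)

theorem proof_PSort : Pool.Agent.W312.WT.PSort := by
  intro hS
  have h := NPC.Poly.foldl (α := List Jb) (β := Jb) (σ := List Jb) (l := fun L => L)
    (s := fun _ => ([] : List Jb)) (F := fun _ acc x => insW acc x) NPC.Poly.id (NPC.Poly.const [])
    (insW_poly.comp (NPC.Poly.pair (NPC.Poly.fst (NPC.Poly.snd NPC.Poly.id)) (NPC.Poly.snd (NPC.Poly.snd NPC.Poly.id))))
    (Polynomial.X * (Polynomial.X + Polynomial.C 1) + Polynomial.C 1) (by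
      intro L k hk
      have hp := (hS (L.take k)).1
      change sz (sortW (L.take k)) ≤ _
      have h1 : ∀ a ∈ sortW (L.take k), sz a ≤ sz L := by
        intro a ha
        have h2 : a ∈ L.take k := hp.mem_iff.1 ha
        exact (sz_le_of_mem (List.mem_of_mem_take h2)).le
      have h3 := sz_le_length_mul (sortW (L.take k)) (sz L) h1
      have h4 : (sortW (L.take k)).length ≤ sz L := by
        rw [hp.length_eq, List.length_take]
        have := length_lt_sz L
        omega
      simp only [Polynomial.eval_add, Polynomial.eval_mul, Polynomial.eval_X, Polynomial.eval_C]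
      have h5 : (sortW (L.take k)).length * (sz L + 1) ≤ sz L * (sz L + 1) :=
        Nat.mul_le_mul_right _ h4
      omega)
  exact h

theorem proof_PNamed : Pool.Agent.W312.WT.PNamed := by
  unfold PNamed named
  exact NPC.Poly.map (l := fun L : List (ℕ × ℕ) => L.zipIdx)
    (F := fun (_ : List (ℕ × ℕ)) (q : (ℕ × ℕ) × ℕ) => ((q.1.1, q.1.2, q.2) : Jb))
    (NPC.Poly.zipIdx NPC.Poly.id)
    (NPC.Poly.pair (NPC.Poly.fst (NPC.Poly.fst (NPC.Poly.snd NPC.Poly.id)))
      (NPC.Poly.pair (NPC.Poly.snd (NPC.Poly.fst (NPC.Poly.snd NPC.Poly.id))) (NPC.Poly.snd (NPC.Poly.snd NPC.Poly.id))))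

end Pool.Agent.W315.WT
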